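import Mathlib

/-!
# Carmichael numbers with `p + 1 ∣ n + 1`: all but three prime factors determine finitely many

Let `n` be squarefree with `p - 1 ∣ n - 1` and `p + 1 ∣ n + 1` for all primes `p ∣ n`.  If
`n = P x y z` with primes `x < y < z`, then `x ^ 2 < 25 P ^ 3`, `z < 2 P x` and
`n ^ 2 < 250000 P ^ 15`.
-/

set_option autoImplicit false

namespace Pool.Agent.Results.MP_2d8e53_nt.AllButThree

/-- From the two divisibilities for a prime `p` with `n = p m`: `p ^ 2 - 1` divides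
`2 (m - 1)`. -/
theorem dvd_two_mul (p m n : ℕ) (hp : 2 < p) (hpp : p.Prime) (hn : n = p * m) (hm : 0 < m)
    (h1 : (p - 1) ∣ (n - 1)) (h2 : (p + 1) ∣ (n + 1)) :
    ((p : ℤ) ^ 2 - 1) ∣ 2 * ((m : ℤ) - 1) := by
  have hodd : Odd p := hpp.odd_of_ne_two (by omega)
  obtain ⟨k, hk⟩ := hodd
  have hn1 : 1 ≤ n := by rw [hn]; exact Nat.one_le_iff_ne_zero.mpr (by positivity)
  have e1 : ((p : ℤ) - 1) ∣ ((n : ℤ) - 1) := by
    have := Int.natCast_dvd_natCast.mpr h1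
    rwa [Nat.cast_sub hn1, Nat.cast_sub (by omega : 1 ≤ p), Nat.cast_one] at this
  have e2 : ((p : ℤ) + 1) ∣ ((n : ℤ) + 1) := by
    have := Int.natCast_dvd_natCast.mpr h2
    push_cast at this
    exact this
  have hnz : (n : ℤ) = p * m := by rw [hn]; push_cast; ring
  have f1 : ((p : ℤ) - 1) ∣ ((m : ℤ) - 1) := by
    have : (m : ℤ) - 1 = ((n : ℤ) - 1) - ((p : ℤ) - 1) * m := by rw [hnz]; ring
    rw [this]
    exact dvd_sub e1 (dvd_mul_right _ _)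
  have f2 : ((p : ℤ) + 1) ∣ ((m : ℤ) - 1) := by
    have : (m : ℤ) - 1 = ((p : ℤ) + 1) * m - ((n : ℤ) + 1) := by rw [hnz]; ring
    rw [this]
    exact dvd_sub (dvd_mul_right _ _) e2
  obtain ⟨s, hs⟩ := f1
  obtain ⟨t, ht⟩ := f2
  have hkz : (p : ℤ) = 2 * k + 1 := by rw [hk]; push_cast; ring
  -- `(p - 1) s = (p + 1) t`, so `2 (m - 1) = (p + 1) (m - 1) - (p - 1) (m - 1)`
  refine ⟨s - t, ?_⟩
  have : 2 * ((m : ℤ) - 1) = ((p : ℤ) + 1) * ((m : ℤ) - 1) - ((p : ℤ) - 1) * ((m : ℤ) - 1) := by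
    ring
  rw [this]
  nth_rewrite 1 [hs]
  rw [ht]
  ring

/-- The product of the three cofactors is larger than the leading terms predict. -/
theorem prod_gt (P x y z : ℤ) (hP : 2 ≤ P) (hx : 2 ≤ x) (hxy : x < y) (hyz : y < z) :
    P ^ 3 * ((x ^ 2 - 1) * (y ^ 2 - 1) * (z ^ 2 - 1)) <
      (P * y * z - 1) * (P * x * z - 1) * (P * x * y - 1) := by
  have hy : 3 ≤ y := by omega
  have hz : 4 ≤ z := by omega
  set S : ℤ := x ^ 2 * y ^ 2 + y ^ 2 * z ^ 2 + z ^ 2 * x ^ 2 with hSdef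
  set T : ℤ := x * y * z * (x + y + z) with hTdef
  have hx2 : (4 : ℤ) ≤ x ^ 2 := by nlinarith
  have hy2 : (9 : ℤ) ≤ y ^ 2 := by nlinarith
  have hz2 : (16 : ℤ) ≤ z ^ 2 := by nlinarith
  have hS : 2 * (x ^ 2 + y ^ 2 + z ^ 2) ≤ S := by nlinarith
  have hT : T ≤ S := by
    nlinarith [sq_nonneg (x * y - y * z), sq_nonneg (y * z - z * x), sq_nonneg (z * x - x * y)]
  have hS0 : 0 ≤ S := by positivity
  have hP2 : 0 ≤ P ^ 2 := by positivity
  have hP3 : 0 < P ^ 3 := by positivity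
  have h1 : P ^ 2 * T ≤ P ^ 2 * S := mul_le_mul_of_nonneg_left hT hP2
  have h2 : 2 * (P ^ 2 * S) ≤ P ^ 3 * S := by
    have : 0 ≤ P ^ 2 * S := by positivity
    nlinarith
  have h3 : P ^ 3 * (2 * (x ^ 2 + y ^ 2 + z ^ 2)) ≤ P ^ 3 * S :=
    mul_le_mul_of_nonneg_left hS hP3.le
  have h4 : 0 < P * (x * y + y * z + z * x) := by positivity
  have h5 : (P * y * z - 1) * (P * x * z - 1) * (P * x * y - 1) -
      P ^ 3 * ((x ^ 2 - 1) * (y ^ 2 - 1) * (z ^ 2 - 1)) =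
      P ^ 3 * S - P ^ 2 * T - P ^ 3 * (x ^ 2 + y ^ 2 + z ^ 2) + P ^ 3 +
        P * (x * y + y * z + z * x) - 1 := by
    rw [hSdef, hTdef]; ring
  have h6 : 8 ≤ P ^ 3 := by nlinarith
  linarith

/-- A product estimate. -/
theorem quad_prod (x y z : ℤ) (hx : 5 ≤ x) (hxy : x < y) (hyz : y < z) :
    x ^ 2 * y ^ 2 * z ^ 2 - (x ^ 2 - 1) * (y ^ 2 - 1) * (z ^ 2 - 1) ≤ 3 * (y ^ 2 * z ^ 2) := by
  have h1 : x ^ 2 ≤ y ^ 2 := pow_le_pow_left₀ (by omega) hxy.le 2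
  have h2 : y ^ 2 ≤ z ^ 2 := pow_le_pow_left₀ (by omega) hyz.le 2
  have h3 : x ^ 2 * y ^ 2 ≤ z ^ 2 * y ^ 2 :=
    mul_le_mul_of_nonneg_right (h1.trans h2) (by positivity)
  have h4 : x ^ 2 * z ^ 2 ≤ y ^ 2 * z ^ 2 := mul_le_mul_of_nonneg_right h1 (by positivity)
  have h5 : (25 : ℤ) ≤ x ^ 2 := by
    calc (25 : ℤ) = 5 ^ 2 := by norm_num
      _ ≤ x ^ 2 := pow_le_pow_left₀ (by norm_num) hx 2
  have h6 : 0 ≤ y ^ 2 := by positivity
  have h7 : 0 ≤ z ^ 2 := by positivity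
  linarith [h3, h4, h5, h6, h7]

/-- The final comparison. -/
theorem final_cmp (X YZ W M : ℤ) (hYZ : 0 < YZ)
    (h8 : X * YZ ≤ 24 * M * W) (h9 : 48 * 120 * W ≤ 49 * 121 * YZ) (hM : 125 ≤ M) :
    X + 1 < 25 * M := by
  have e1 : 48 * 120 * (X * YZ) ≤ 24 * M * (49 * 121 * YZ) := by
    calc 48 * 120 * (X * YZ) ≤ 48 * 120 * (24 * M * W) := by linarith
      _ = 24 * M * (48 * 120 * W) := by ring
      _ ≤ 24 * M * (49 * 121 * YZ) := mul_le_mul_of_nonneg_left h9 (by linarith)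
  have e2 : (48 * 120 * X) * YZ ≤ (24 * M * (49 * 121)) * YZ := by linarith
  have e3 : 48 * 120 * X ≤ 24 * M * (49 * 121) := le_of_mul_le_mul_right e2 hYZ
  linarith

/-- The Diophantine core. -/
theorem core (P x y z a b c : ℤ) (hP : 5 ≤ P) (hx : 5 ≤ x) (hxy : x < y) (hyz : y < z)
    (hy : 7 ≤ y) (hz : 11 ≤ z)
    (ha : 2 * (P * (y * z) - 1) = (x ^ 2 - 1) * a) (hb : 2 * (P * (x * z) - 1) = (y ^ 2 - 1) * b)
    (hc : 2 * (P * (x * y) - 1) = (z ^ 2 - 1) * c) :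
    x ^ 2 < 25 * P ^ 3 := by
  have hx2 : (25 : ℤ) ≤ x ^ 2 := by
    calc (25 : ℤ) = 5 ^ 2 := by norm_num
      _ ≤ x ^ 2 := pow_le_pow_left₀ (by norm_num) hx 2
  have hy2 : (49 : ℤ) ≤ y ^ 2 := by
    calc (49 : ℤ) = 7 ^ 2 := by norm_num
      _ ≤ y ^ 2 := pow_le_pow_left₀ (by norm_num) hy 2
  have hz2 : (121 : ℤ) ≤ z ^ 2 := by
    calc (121 : ℤ) = 11 ^ 2 := by norm_num
      _ ≤ z ^ 2 := pow_le_pow_left₀ (by norm_num) hz 2
  have hX : 0 < x ^ 2 - 1 := by linarith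
  have hY : 0 < y ^ 2 - 1 := by linarith
  have hZ : 0 < z ^ 2 - 1 := by linarith
  have h1 := prod_gt P x y z (by omega) (by omega) hxy hyz
  have hXYZ : 0 < (x ^ 2 - 1) * (y ^ 2 - 1) * (z ^ 2 - 1) := mul_pos (mul_pos hX hY) hZ
  have hQ := quad_prod x y z hx hxy hyz
  have hyz1 : 5 * (7 * 11) ≤ P * (y * z) := by gcongr
  have hxz1 : 5 * (5 * 11) ≤ P * (x * z) := by gcongr
  have hxy1 : 5 * (5 * 7) ≤ P * (x * y) := by gcongr
  have h2 : (a * b * c) * ((x ^ 2 - 1) * (y ^ 2 - 1) * (z ^ 2 - 1)) =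
      8 * ((P * (y * z) - 1) * (P * (x * z) - 1) * (P * (x * y) - 1)) := by
    calc (a * b * c) * ((x ^ 2 - 1) * (y ^ 2 - 1) * (z ^ 2 - 1)) =
        ((x ^ 2 - 1) * a) * ((y ^ 2 - 1) * b) * ((z ^ 2 - 1) * c) := by ring
      _ = _ := by rw [← ha, ← hb, ← hc]; ring
  have h1' : P ^ 3 * ((x ^ 2 - 1) * (y ^ 2 - 1) * (z ^ 2 - 1)) <
      (P * (y * z) - 1) * (P * (x * z) - 1) * (P * (x * y) - 1) := by
    simpa only [mul_assoc] using h1
  have h5 : (P * (y * z) - 1) * (P * (x * z) - 1) * (P * (x * y) - 1) ≤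
      P ^ 3 * (x ^ 2 * y ^ 2 * z ^ 2) := by
    have e1 : (P * (y * z) - 1) * (P * (x * z) - 1) ≤ (P * (y * z)) * (P * (x * z)) :=
      mul_le_mul (by linarith) (by linarith) (by linarith) (by linarith)
    calc (P * (y * z) - 1) * (P * (x * z) - 1) * (P * (x * y) - 1)
        ≤ (P * (y * z)) * (P * (x * z)) * (P * (x * y)) :=
          mul_le_mul e1 (by linarith) (by linarith)
            (mul_nonneg (by linarith) (by linarith))
      _ = _ := by ring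
  generalize hR : (P * (y * z) - 1) * (P * (x * z) - 1) * (P * (x * y) - 1) = R at *
  generalize hV : (x ^ 2 - 1) * (y ^ 2 - 1) * (z ^ 2 - 1) = V at *
  have h3 : 8 * P ^ 3 + 1 ≤ a * b * c := by
    by_contra hcon
    have hcon' : a * b * c ≤ 8 * P ^ 3 := by omega
    have := mul_le_mul_of_nonneg_right hcon' hXYZ.le
    linarith
  have h4 : (8 * P ^ 3 + 1) * V ≤ 8 * R := by
    rw [← h2]
    exact mul_le_mul_of_nonneg_right h3 hXYZ.le
  have hP3 : (125 : ℤ) ≤ P ^ 3 := by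
    calc (125 : ℤ) = 5 ^ 3 := by norm_num
      _ ≤ P ^ 3 := pow_le_pow_left₀ (by norm_num) hP 3
  have h6 : V ≤ 8 * P ^ 3 * (x ^ 2 * y ^ 2 * z ^ 2 - V) := by linarith
  have h7 : 8 * P ^ 3 * (x ^ 2 * y ^ 2 * z ^ 2 - V) ≤ 8 * P ^ 3 * (3 * (y ^ 2 * z ^ 2)) :=
    mul_le_mul_of_nonneg_left hQ (by linarith)
  have h8 : (x ^ 2 - 1) * ((y ^ 2 - 1) * (z ^ 2 - 1)) ≤ 24 * P ^ 3 * (y ^ 2 * z ^ 2) := by
    have : (x ^ 2 - 1) * ((y ^ 2 - 1) * (z ^ 2 - 1)) = V := by rw [← hV]; ring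
    rw [this]; linarith
  have h9 : 48 * 120 * (y ^ 2 * z ^ 2) ≤ 49 * 121 * ((y ^ 2 - 1) * (z ^ 2 - 1)) := by
    have e1 : 48 * y ^ 2 ≤ 49 * (y ^ 2 - 1) := by linarith
    have e2 : 120 * z ^ 2 ≤ 121 * (z ^ 2 - 1) := by linarith
    calc 48 * 120 * (y ^ 2 * z ^ 2) = (48 * y ^ 2) * (120 * z ^ 2) := by ring
      _ ≤ (49 * (y ^ 2 - 1)) * (121 * (z ^ 2 - 1)) :=
          mul_le_mul e1 e2 (by positivity) (by linarith)
      _ = _ := by ring
  have := final_cmp (x ^ 2 - 1) ((y ^ 2 - 1) * (z ^ 2 - 1)) (y ^ 2 * z ^ 2) (P ^ 3)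
    (mul_pos hY hZ) h8 h9 hP3
  linarith

/-- The case `P = 1`. -/
theorem case_one (x y z b c : ℤ) (hx : 5 ≤ x) (hxy : x < y) (hyz : y < z) (hb1 : 1 ≤ b)
    (hc1 : 1 ≤ c) (hb : 2 * (x * z - 1) = (y ^ 2 - 1) * b)
    (hc : 2 * (x * y - 1) = (z ^ 2 - 1) * c) : x * z = y ^ 2 := by
  have hxyzz : x * y < z * z := mul_lt_mul'' (by omega) hyz (by omega) (by omega)
  have hz2 : 1 < z * z := by
    calc (1 : ℤ) < 7 * 7 := by norm_num
      _ ≤ z * z := mul_le_mul (by omega) (by omega) (by omega) (by omega)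
  have hc' : c = 1 := by
    have : c < 2 := by
      by_contra hcon
      have hcon' : 2 ≤ c := by omega
      have h1 : (z ^ 2 - 1) * 2 ≤ (z ^ 2 - 1) * c :=
        mul_le_mul_of_nonneg_left hcon' (by rw [sq]; linarith)
      have h3 : z ^ 2 = z * z := sq z
      linarith
    omega
  rw [hc'] at hc
  have e1 : 2 * (x * y) = z ^ 2 + 1 := by linarith
  have h5 : z ^ 2 + 1 ≤ 2 * ((y - 1) * y) := by
    rw [← e1]
    have : x * y ≤ (y - 1) * y := mul_le_mul_of_nonneg_right (by omega) (by omega)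
    linarith
  have hb3 : b < 3 := by
    by_contra hcon
    have hcon' : 3 ≤ b := by omega
    have hy0 : 0 ≤ y ^ 2 - 1 := by
      have : (1 : ℤ) ≤ y ^ 2 := one_le_pow₀ (by omega)
      linarith
    have h1 : (y ^ 2 - 1) * 3 ≤ (y ^ 2 - 1) * b := mul_le_mul_of_nonneg_left hcon' hy0
    have h3 : 3 * (y ^ 2 - 1) ≤ 2 * (x * z - 1) := by linarith
    have h4 : y * (3 * (y ^ 2 - 1)) ≤ z * (z ^ 2 + 1) - 2 * y := by
      have h := mul_le_mul_of_nonneg_left h3 (show (0 : ℤ) ≤ y by omega)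
      have e2 : z * (z ^ 2 + 1) = 2 * (x * y) * z := by rw [e1]; ring
      rw [e2]; linarith
    have h6 : 2 * z ≤ 3 * y := by
      by_contra hcon2
      have hc2 : 3 * y < 2 * z := by omega
      have : (3 * y) * (3 * y) < (2 * z) * (2 * z) :=
        mul_lt_mul'' hc2 hc2 (by omega) (by omega)
      have hyy : 0 < y * y := mul_pos (by omega) (by omega)
      have h3' : z ^ 2 = z * z := sq z
      linarith
    have h7 : z * (z ^ 2 + 1) * 2 ≤ (3 * y) * (2 * ((y - 1) * y)) := by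
      calc z * (z ^ 2 + 1) * 2 = (2 * z) * (z ^ 2 + 1) := by ring
        _ ≤ (3 * y) * (2 * ((y - 1) * y)) :=
            mul_le_mul h6 h5 (by positivity) (by omega)
    have hyy : y * 1 ≤ y * y := mul_le_mul_of_nonneg_left (by omega) (by omega)
    have e3 : y * (3 * (y ^ 2 - 1)) = 3 * y ^ 3 - 3 * y := by ring
    have e4 : (3 * y) * (2 * ((y - 1) * y)) = 6 * y ^ 3 - 6 * (y * y) := by ring
    rw [e3] at h4
    rw [e4] at h7
    linarith
  have hb' : b = 1 ∨ b = 2 := by omega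
  rcases hb' with h | h
  · exfalso
    rw [h] at hb
    -- `y² + 1 = 2 x z` and `z² + 1 = 2 x y`
    have e2 : 2 * (x * z) = y ^ 2 + 1 := by linarith
    have h1 : x * y < x * z := mul_lt_mul_of_pos_left hyz (by omega)
    have h2 : y * y < z * z := mul_lt_mul'' hyz hyz (by omega) (by omega)
    have h3' : z ^ 2 = z * z := sq z
    have h4' : y ^ 2 = y * y := sq y
    linarith
  · rw [h] at hb
    linarith

/-- Let `n` be squarefree with `p - 1 ∣ n - 1` and `p + 1 ∣ n + 1` for all primes `p` dividing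
`n`, and let `n = P x y z` with primes `x < y < z`.  Then `x ^ 2 < 25 P ^ 3`, `z < 2 P x`, and
hence `n ^ 2 < 250000 P ^ 15`. -/
theorem result (n : ℕ) (hsq : Squarefree n)
    (hn : ∀ p : ℕ, p.Prime → p ∣ n → (p - 1) ∣ (n - 1) ∧ (p + 1) ∣ (n + 1))
    (P x y z : ℕ) (hx : x.Prime) (hy : y.Prime) (hz : z.Prime) (hxy : x < y) (hyz : y < z)
    (hnP : n = P * x * y * z) :
    x ^ 2 < 25 * P ^ 3 ∧ z < 2 * P * x ∧ n ^ 2 < 250000 * P ^ 15 := by
  have hn0 : n ≠ 0 := hsq.ne_zero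
  have hP0 : P ≠ 0 := by rintro rfl; simp at hnP; exact hn0 hnP
  have hxn : x ∣ n := ⟨P * y * z, by rw [hnP]; ring⟩
  have hyn : y ∣ n := ⟨P * x * z, by rw [hnP]; ring⟩
  have hzn : z ∣ n := ⟨P * x * y, by rw [hnP]; ring⟩
  have hx2 := hx.two_le
  have hzodd : z % 2 = 1 := by
    rcases hz.eq_two_or_odd with h | h
    · omega
    · exact h
  have hn2 : ¬ 2 ∣ n := by
    intro h2
    obtain ⟨k, hk⟩ := (hn z hz hzn).1
    have hd : 2 ∣ z - 1 := by omega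
    have : 2 ∣ n - 1 := by rw [hk]; exact dvd_mul_of_dvd_left hd k
    omega
  have hn3 : ¬ 3 ∣ n := by
    intro h3
    have hz3 : z ≠ 3 := by
      rintro rfl
      have hx' : x = 2 ∨ x = 1 ∨ x = 0 := by omega
      rcases hx' with h | h | h
      · exact hn2 (h ▸ hxn)
      · omega
      · omega
    have hz3' : z % 3 ≠ 0 := fun h =>
      hz3 (((Nat.prime_dvd_prime_iff_eq Nat.prime_three hz).mp (Nat.dvd_of_mod_eq_zero h)).symm)
    obtain ⟨k, hk⟩ := (hn z hz hzn).1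
    obtain ⟨l, hl⟩ := (hn z hz hzn).2
    have hcase : z % 3 = 1 ∨ z % 3 = 2 := by omega
    rcases hcase with h | h
    · have h3' : 3 ∣ z - 1 := by omega
      have : 3 ∣ n - 1 := by rw [hk]; exact dvd_mul_of_dvd_left h3' k
      omega
    · have h3' : 3 ∣ z + 1 := by omega
      have : 3 ∣ n + 1 := by rw [hl]; exact dvd_mul_of_dvd_left h3' l
      omega
  have hge5 : ∀ q : ℕ, q.Prime → q ∣ n → 5 ≤ q := by
    intro q hq hqn
    by_contra hlt
    have hlt' : q < 5 := by omega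
    have := hq.two_le
    interval_cases q
    · exact hn2 hqn
    · exact hn3 hqn
    · exact absurd hq (by norm_num)
  have hx5 := hge5 x hx hxn
  have hy7 : 7 ≤ y := by
    by_contra hlt
    have : y = 6 := by omega
    rw [this] at hy
    exact absurd hy (by norm_num)
  have hz11 : 11 ≤ z := by
    by_contra hlt
    have h8 : z = 8 ∨ z = 9 ∨ z = 10 := by omega
    rcases h8 with h | h | h <;> rw [h] at hz <;> exact absurd hz (by norm_num)
  have hxp := hx.pos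
  have hyp := hy.pos
  have hzp := hz.pos
  have hPp : 0 < P := Nat.pos_of_ne_zero hP0
  obtain ⟨a, ha⟩ := dvd_two_mul x (P * (y * z)) n (by omega) hx (by rw [hnP]; ring)
    (by positivity) (hn x hx hxn).1 (hn x hx hxn).2
  obtain ⟨b, hb⟩ := dvd_two_mul y (P * (x * z)) n (by omega) hy (by rw [hnP]; ring)
    (by positivity) (hn y hy hyn).1 (hn y hy hyn).2
  obtain ⟨c, hc⟩ := dvd_two_mul z (P * (x * y)) n (by omega) hz (by rw [hnP]; ring)
    (by positivity) (hn z hz hzn).1 (hn z hz hzn).2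
  push_cast at ha hb hc
  have hPz : (1 : ℤ) ≤ P := by exact_mod_cast hPp
  have hx5z : (5 : ℤ) ≤ x := by exact_mod_cast hx5
  have hy7z : (7 : ℤ) ≤ y := by exact_mod_cast hy7
  have hz11z : (11 : ℤ) ≤ z := by exact_mod_cast hz11
  have hxyz : (x : ℤ) < y := by exact_mod_cast hxy
  have hyzz : (y : ℤ) < z := by exact_mod_cast hyz
  have hY0 : (0 : ℤ) ≤ (y : ℤ) ^ 2 - 1 := by
    have : (1 : ℤ) ≤ (y : ℤ) ^ 2 := one_le_pow₀ (by omega)
    linarith
  have hZ0 : (0 : ℤ) ≤ (z : ℤ) ^ 2 - 1 := by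
    have : (1 : ℤ) ≤ (z : ℤ) ^ 2 := one_le_pow₀ (by omega)
    linarith
  have hPxz : (1 : ℤ) * (5 * 11) ≤ P * (x * z) := by gcongr
  have hPxy : (1 : ℤ) * (5 * 7) ≤ P * (x * y) := by gcongr
  have hb1 : (1 : ℤ) ≤ b := by
    by_contra hcon
    have h2 : ((y : ℤ) ^ 2 - 1) * b ≤ 0 := mul_nonpos_of_nonneg_of_nonpos hY0 (by omega)
    linarith
  have hc1 : (1 : ℤ) ≤ c := by
    by_contra hcon
    have h2 : ((z : ℤ) ^ 2 - 1) * c ≤ 0 := mul_nonpos_of_nonneg_of_nonpos hZ0 (by omega)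
    linarith
  have hY2 : (y : ℤ) ^ 2 < 2 * (P * (x * z)) := by
    have := mul_le_mul_of_nonneg_left hb1 hY0
    linarith
  have hZ2 : (z : ℤ) ^ 2 < 2 * (P * (x * y)) := by
    have := mul_le_mul_of_nonneg_left hc1 hZ0
    linarith
  have hz2P : (z : ℤ) < 2 * P * x := by
    by_contra hcon
    have hcon' : 2 * (P : ℤ) * x ≤ z := by omega
    have : (z : ℤ) ^ 2 < z * z := by
      calc (z : ℤ) ^ 2 < 2 * (P * (x * y)) := hZ2
        _ = (2 * P * x) * y := by ring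
        _ ≤ z * z := mul_le_mul hcon' hyzz.le (by omega) (by omega)
    rw [sq] at this
    exact lt_irrefl _ this
  have hP5 : 5 ≤ P := by
    by_contra hlt
    have hP1 : P = 1 := by
      by_contra hne
      obtain ⟨q, hq, hqP⟩ := Nat.exists_prime_and_dvd hne
      have hqn : q ∣ n := hqP.trans ⟨x * y * z, by rw [hnP]; ring⟩
      have h1 := hge5 q hq hqn
      have h2 := Nat.le_of_dvd hPp hqP
      omega
    rw [hP1] at hb hc
    push_cast at hb hc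
    rw [one_mul] at hb hc
    have e2 := case_one x y z b c hx5z hxyz hyzz hb1 hc1 hb hc
    have e3 : x * z = y ^ 2 := by exact_mod_cast e2
    have h1 : z ∣ y ^ 2 := ⟨x, by rw [← e3]; ring⟩
    have h2 := (Nat.prime_dvd_prime_iff_eq hz hy).mp (hz.dvd_of_dvd_pow h1)
    omega
  have hP5z : (5 : ℤ) ≤ P := by exact_mod_cast hP5
  have hcore := core P x y z a b c hP5z hx5z hxyz hyzz hy7z hz11z ha hb hc
  refine ⟨by exact_mod_cast hcore, by exact_mod_cast hz2P, ?_⟩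
  have hfin : (n : ℤ) ^ 2 < 250000 * (P : ℤ) ^ 15 := by
    have en : (n : ℤ) = P * x * y * z := by rw [hnP]; push_cast; ring
    have hPpos : (0 : ℤ) < P := by omega
    have hxpos : (0 : ℤ) < x := by omega
    have hy2P : (y : ℤ) ≤ 2 * P * x := by linarith
    have e1 : (n : ℤ) ≤ P * x * (2 * P * x) * (2 * P * x) := by
      rw [en]
      exact mul_le_mul (mul_le_mul_of_nonneg_left hy2P (by positivity)) hz2P.le (by omega)
        (by positivity)
    have e2 : (n : ℤ) ^ 2 ≤ 16 * (P : ℤ) ^ 6 * (x ^ 2) ^ 3 := by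
      calc (n : ℤ) ^ 2 ≤ (P * x * (2 * P * x) * (2 * P * x)) ^ 2 :=
            pow_le_pow_left₀ (by positivity) e1 2
        _ = _ := by ring
    have e3 : ((x : ℤ) ^ 2) ^ 3 < (25 * (P : ℤ) ^ 3) ^ 3 :=
      pow_lt_pow_left₀ hcore (by positivity) (by norm_num)
    have e4 : 16 * (P : ℤ) ^ 6 * (x ^ 2) ^ 3 < 16 * (P : ℤ) ^ 6 * (25 * (P : ℤ) ^ 3) ^ 3 :=
      mul_lt_mul_of_pos_left e3 (by positivity)
    have e5 : 16 * (P : ℤ) ^ 6 * (25 * (P : ℤ) ^ 3) ^ 3 = 250000 * (P : ℤ) ^ 15 := by ring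
    linarith
  exact_mod_cast hfin

end Pool.Agent.Results.MP_2d8e53_nt.AllButThree
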