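import Mathlib
import Pool.Agent.Lib.MP_2d8e53_nt.K.Sv31
import Pool.Agent.Lib.MP_2d8e53_nt.K.Cn22
import Pool.Agent.Lib.MP_2d8e53_nt.K.Ph22

/-!
The numbers asked for have few small prime factors: at most `C y / (log y) ^ 2` up to `y`, and
`n / φ n` is bounded.
-/

set_option autoImplicit false

namespace Pool.Agent.Results.MP_2d8e53_nt.BoundedRatio

/-- `n` is composite and squarefree, and `p - 1` divides `n - 1` and `p + 1` divides `n + 1` for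
every prime `p` dividing `n`. -/
def Rigid (n : ℕ) : Prop :=
  1 < n ∧ ¬ n.Prime ∧ Squarefree n ∧ ∀ p : ℕ, p.Prime → p ∣ n → p - 1 ∣ n - 1 ∧ p + 1 ∣ n + 1

theorem result : ∃ C : ℝ, ∀ n : ℕ, Rigid n →
    (∀ y : ℝ, 2 ≤ y →
      (Set.ncard {p : ℕ | p.Prime ∧ p ∣ n ∧ (p : ℝ) ≤ y} : ℝ) ≤ C * y / Real.log y ^ 2) ∧
    (n : ℝ) ≤ C * n.totient := by
  obtain ⟨C₁, hC₁, h₁⟩ := Pool.Agent.Lib.MP_2d8e53_nt.K.stCn_22
    Pool.Agent.Lib.MP_2d8e53_nt.K.stSv_31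
  obtain ⟨C₂, hC₂, h₂⟩ := Pool.Agent.Lib.MP_2d8e53_nt.K.stPh_22
    (Pool.Agent.Lib.MP_2d8e53_nt.K.stCn_22 Pool.Agent.Lib.MP_2d8e53_nt.K.stSv_31)
  refine ⟨max C₁ C₂, fun n hn => ⟨fun y hy => ?_, ?_⟩⟩
  · have h := h₁ n hn y hy
    have hn0 : n ≠ 0 := by have := hn.1; omega
    have hset : {p : ℕ | p.Prime ∧ p ∣ n ∧ (p : ℝ) ≤ y} =
        ((n.primeFactors.filter fun p : ℕ => (p : ℝ) ≤ y : Finset ℕ) : Set ℕ) := by
      ext p
      simp only [Set.mem_ofPred_eq, Finset.coe_filter, Nat.mem_primeFactors]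
      constructor
      · rintro ⟨k1, k2, k3⟩
        exact ⟨⟨k1, k2, hn0⟩, k3⟩
      · rintro ⟨⟨k1, k2, _⟩, k3⟩
        exact ⟨k1, k2, k3⟩
    rw [hset, Set.ncard_coe_finset]
    have hl : 0 ≤ y / Real.log y ^ 2 := by positivity
    calc _ ≤ C₁ * y / Real.log y ^ 2 := by convert h
      _ = C₁ * (y / Real.log y ^ 2) := by ring
      _ ≤ max C₁ C₂ * (y / Real.log y ^ 2) :=
        mul_le_mul_of_nonneg_right (le_max_left _ _) hl
      _ = max C₁ C₂ * y / Real.log y ^ 2 := by ring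
  · refine (h₂ n hn).trans ?_
    exact mul_le_mul_of_nonneg_right (le_max_right _ _) (Nat.cast_nonneg _)

end Pool.Agent.Results.MP_2d8e53_nt.BoundedRatio
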