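import Pool.Agent.Lib.MP_2d8e53_nt.W.Main95

/-!
# An upper bound for the number of Carmichael numbers `n` with `p + 1 ∣ n + 1` for all `p ∣ n`
-/

set_option autoImplicit false

namespace Pool.Agent.Results.MP_2d8e53_nt.CountingBound

/-- `n` is composite and squarefree, and `p - 1 ∣ n - 1` and `p + 1 ∣ n + 1` for every prime
`p ∣ n`. -/
def Rigid (n : ℕ) : Prop :=
  1 < n ∧ ¬ n.Prime ∧ Squarefree n ∧
    ∀ p : ℕ, p.Prime → p ∣ n → (p - 1) ∣ (n - 1) ∧ (p + 1) ∣ (n + 1)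

/-- For every `κ < 3 / 2` and every sufficiently large `x` there are at most
`x * exp (-κ * log x * log log log x / log log x)` such numbers up to `x`. -/
theorem result (κ : ℝ) (hκ : κ < 3 / 2) : ∃ X : ℝ, ∀ x : ℕ, X ≤ x →
    ({n : ℕ | n ≤ x ∧ Rigid n}.ncard : ℝ) ≤
      x * Real.exp (-(κ * Real.log x * Real.log (Real.log (Real.log x)) /
        Real.log (Real.log x))) := by
  classical
  obtain ⟨X, hX⟩ := Pool.Agent.Lib.MP_2d8e53_nt.W.stFin_95 κ hκ
  refine ⟨X, fun x hx => ?_⟩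
  refine le_trans (le_of_eq ?_) (hX x hx)
  have e : {n : ℕ | n ≤ x ∧ Rigid n} =
      (((Finset.Icc 1 x).filter Pool.Agent.Lib.MP_2d8e53_nt.W.Rig : Finset ℕ) : Set ℕ) := by
    ext n
    simp only [Set.mem_ofPred_eq, Finset.coe_filter, Finset.mem_Icc]
    constructor
    · rintro ⟨h1, h2⟩
      exact ⟨⟨by have := h2.1; omega, h1⟩, h2⟩
    · rintro ⟨⟨_, h1⟩, h2⟩
      exact ⟨h1, h2⟩
  rw [e, Set.ncard_coe_finset]

end Pool.Agent.Results.MP_2d8e53_nt.CountingBound
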