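import Mathlib
import Pool.Agent.Lib.MP_2d8e53_nt.K.Main95

/-!
At most `x ^ (1 - δ + ε)` of the numbers asked for up to `x` have at most `(log x) ^ (1 - δ)`
prime factors.
-/

set_option autoImplicit false

namespace Pool.Agent.Results.MP_2d8e53_nt.FewPrimeFactors

/-- `n` is composite and squarefree, and `p - 1` divides `n - 1` and `p + 1` divides `n + 1` for
every prime `p` dividing `n`. -/
def Rigid (n : ℕ) : Prop :=
  1 < n ∧ ¬ n.Prime ∧ Squarefree n ∧ ∀ p : ℕ, p.Prime → p ∣ n → p - 1 ∣ n - 1 ∧ p + 1 ∣ n + 1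

theorem result : ∀ δ ε : ℝ, 0 < δ → δ ≤ 1 / 2 → 0 < ε → ∃ X : ℕ, ∀ x : ℕ, X ≤ x →
    (Set.ncard {n : ℕ | n ≤ x ∧ Rigid n ∧
      (n.primeFactors.card : ℝ) ≤ Real.log x ^ (1 - δ)} : ℝ) ≤ (x : ℝ) ^ (1 - δ + ε) := by
  intro δ ε hδ hδ2 hε
  obtain ⟨X, hX⟩ := Pool.Agent.Lib.MP_2d8e53_nt.K.stFewAll_95 δ ε hδ hδ2 hε
  refine ⟨X, fun x hx => ?_⟩
  have h := hX x hx
  classical
  have hset : {n : ℕ | n ≤ x ∧ Rigid n ∧ (n.primeFactors.card : ℝ) ≤ Real.log x ^ (1 - δ)} =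
      (((Finset.Icc 1 x).filter fun n => Pool.Agent.Lib.MP_2d8e53_nt.W.Rig n ∧
        (n.primeFactors.card : ℝ) ≤ Real.log x ^ (1 - δ) : Finset ℕ) : Set ℕ) := by
    ext n
    simp only [Set.mem_ofPred_eq, Finset.coe_filter, Finset.mem_Icc]
    constructor
    · rintro ⟨h1, h2, h3⟩
      exact ⟨⟨h2.1.le, h1⟩, h2, h3⟩
    · rintro ⟨⟨_, h1⟩, h2, h3⟩
      exact ⟨h1, h2, h3⟩
  rw [hset, Set.ncard_coe_finset]
  convert h using 3

end Pool.Agent.Results.MP_2d8e53_nt.FewPrimeFactors
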